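import Pool.Agent.Q33.SB.Stm

/-!
# Project SB (row MP_ad201b_nt), job FIX: points of finite covers over the generic point
-/

set_option autoImplicit false

open CategoryTheory CategoryTheory.Limits AlgebraicGeometry

namespace Pool.Agent.Q195.SB

/-- the algebraic part: a homomorphism from a finite algebra is fixed by the automorphisms which fix the
images of finitely many generators -/
theorem alg {R L C Ω : Type} [CommRing R] [IsDomain R] [Field L] [Algebra R L] [IsFractionRing R L]
    [CommRing C] [Field Ω] (j : R →+* Ω) (j' : L →+* Ω) (hj : ∀ r, j' (algebraMap R L r) = j r)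
    (φ : L →+* C) (hφ : φ.Finite) (ψ : C →+* Ω) (h : ψ.comp φ = j') :
    ∃ S : Finset Ω, (∀ α ∈ S, ∃ q : Polynomial R, q ≠ 0 ∧ q.eval₂ j α = 0) ∧
      ∀ τ : Ω ≃+* Ω, (∀ r, τ (j r) = j r) → (∀ α ∈ S, τ α = α) → (τ : Ω →+* Ω).comp ψ = ψ := by
  classical
  let _ := φ.toAlgebra
  have hfin : Module.Finite L C := hφ
  obtain ⟨s, hs⟩ := hfin.fg_top
  refine ⟨s.image ψ, ?_, ?_⟩
  · intro α hα
    rw [Finset.mem_image] at hα
    obtain ⟨c, -, rfl⟩ := hα
    obtain ⟨P, hP1, hP2⟩ := IsIntegral.of_finite L c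
    refine ⟨IsLocalization.integerNormalization (nonZeroDivisors R) P, ?_, ?_⟩
    · intro h0
      exact hP1.ne_zero (IsFractionRing.integerNormalization_eq_zero_iff.1 h0)
    · have h1 : P.eval₂ j' (ψ c) = 0 := by
        rw [← h, ← Polynomial.hom_eval₂]
        have h2 : Polynomial.eval₂ φ c P = 0 := hP2
        rw [h2, map_zero]
      have h2 := IsLocalization.integerNormalization_eval₂_eq_zero (nonZeroDivisors R) j' P h1
      have h3 : j'.comp (algebraMap R L) = j := RingHom.ext hj
      rw [h3] at h2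
      exact h2
  · intro τ hτ hS
    have h4 : ∀ l : L, τ (j' l) = j' l := by
      intro l
      have h5 : (τ : Ω →+* Ω).comp j' = j' := by
        apply IsLocalization.ringHom_ext (nonZeroDivisors R)
        ext r
        simp only [RingHom.comp_apply, hj]
        exact hτ r
      exact RingHom.congr_fun h5 l
    ext c
    have hc : c ∈ Submodule.span L (s : Set C) := by
      rw [hs]
      trivial
    change τ (ψ c) = ψ c
    induction hc using Submodule.span_induction with
    | mem x hx => exact hS _ (Finset.mem_image_of_mem _ hx)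
    | zero => simp
    | add x y _ _ hx hy => rw [map_add, map_add, hx, hy]
    | smul a x _ hx =>
      have h6 : a • x = φ a * x := rfl
      rw [h6, map_mul, map_mul, hx]
      have h7 : ψ (φ a) = j' a := RingHom.congr_fun h a
      rw [h7, h4]

theorem t_FIX : Pool.Agent.Q33.SB.S_FIX := by
  intro R _ _ Ω _ j hj U Y h hfin y hy
  have := hfin
  let L := FractionRing R
  let j' : L →+* Ω := IsFractionRing.lift hj
  have hj' : ∀ r, j' (algebraMap R L r) = j r := fun r => IsFractionRing.lift_algebraMap hj r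
  let a : Spec (.of L) ⟶ Spec (.of R) := Spec.map (CommRingCat.ofHom (algebraMap R L))
  let b : Spec (.of Ω) ⟶ Spec (.of L) := Spec.map (CommRingCat.ofHom j')
  have hba : b ≫ a = Spec.map (CommRingCat.ofHom j) := by
    change Spec.map (CommRingCat.ofHom j') ≫ Spec.map (CommRingCat.ofHom (algebraMap R L)) = _
    rw [← Spec.map_comp, ← CommRingCat.ofHom_comp]
    congr 2
    ext r
    exact hj' r
  have hrange : Set.range a ⊆ Set.range U.ι := by
    rintro _ ⟨t, rfl⟩
    have hsub : Subsingleton (Spec (.of L)) := inferInstanceAs (Subsingleton (PrimeSpectrum L))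
    have hne : Nonempty (Spec (.of Ω)) := inferInstanceAs (Nonempty (PrimeSpectrum Ω))
    obtain ⟨p⟩ := hne
    have h1 : t = b p := Subsingleton.elim _ _
    have h2 : (b ≫ a) p = (y ≫ h ≫ U.ι) p := by rw [hba, hy]
    rw [h1]
    refine ⟨(y ≫ h) p, ?_⟩
    rw [← Scheme.Hom.comp_apply, ← Scheme.Hom.comp_apply, Category.assoc, h2]
  let g : Spec (.of L) ⟶ U.toScheme := IsOpenImmersion.lift U.ι a hrange
  have hg : g ≫ U.ι = a := IsOpenImmersion.lift_fac U.ι a hrange
  have hcomp : y ≫ h = b ≫ g := by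
    rw [← cancel_mono U.ι, Category.assoc, Category.assoc, hg, hy, hba]
  let Z := pullback h g
  have hZ : IsAffine Z := isAffine_of_isAffineHom (pullback.snd h g)
  let yL : Spec (.of Ω) ⟶ Z := pullback.lift y b hcomp
  have hy1 : yL ≫ pullback.fst h g = y := pullback.lift_fst _ _ _
  have hy2 : yL ≫ pullback.snd h g = b := pullback.lift_snd _ _ _
  let ψ : Γ(Z, ⊤) ⟶ (.of Ω) := yL.appTop ≫ (Scheme.ΓSpecIso (.of Ω)).hom
  let φ : (.of L) ⟶ Γ(Z, ⊤) := (Scheme.ΓSpecIso (.of L)).inv ≫ (pullback.snd h g).appTop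
  have hφ : φ.hom.Finite := by
    have h1 := Scheme.Hom.finite_appTop (pullback.snd h g)
    have h2 : (Scheme.ΓSpecIso (.of L)).inv.hom.Finite := by
      apply RingHom.Finite.of_surjective
      exact (ConcreteCategory.bijective_of_isIso (Scheme.ΓSpecIso (.of L)).inv).surjective
    change ((Scheme.ΓSpecIso (.of L)).inv ≫ (pullback.snd h g).appTop).hom.Finite
    rw [CommRingCat.hom_comp]
    exact h1.comp h2
  have hψφ : φ ≫ ψ = CommRingCat.ofHom j' := by
    change ((Scheme.ΓSpecIso (.of L)).inv ≫ (pullback.snd h g).appTop) ≫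
      (yL.appTop ≫ (Scheme.ΓSpecIso (.of Ω)).hom) = _
    rw [Category.assoc, ← Category.assoc (pullback.snd h g).appTop, ← Scheme.Hom.comp_appTop, hy2]
    change (Scheme.ΓSpecIso (.of L)).inv ≫ (Spec.map (CommRingCat.ofHom j')).appTop ≫ _ = _
    rw [Scheme.ΓSpecIso_naturality, Iso.inv_hom_id_assoc]
  obtain ⟨S, hS1, hS2⟩ := alg j j' hj' φ.hom hφ ψ.hom (by
    rw [← CommRingCat.hom_comp, hψφ]
    rfl)
  refine ⟨S, hS1, fun τ hτ hτS => ?_⟩
  have h3 := hS2 τ hτ hτS
  have h4 : Spec.map (CommRingCat.ofHom (τ : Ω →+* Ω)) ≫ yL = yL := by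
    apply ext_of_isAffine
    rw [Scheme.Hom.comp_appTop, ← cancel_mono (Scheme.ΓSpecIso (.of Ω)).hom, Category.assoc,
      Scheme.ΓSpecIso_naturality, ← Category.assoc]
    apply CommRingCat.hom_ext
    rw [CommRingCat.hom_comp]
    exact h3
  rw [← hy1, ← Category.assoc, h4]

end Pool.Agent.Q195.SB
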