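import Pool.Agent.Q33.SB.Stm
import Pool.Agent.Q33.SB.Bas
import Pool.Agent.Q38.EX.NrmB
import Pool.Agent.Q280.AR.Unr

/-!
# Project SB, job NUN

Every unit of `ℤ_p` is a norm from `ℚ_p ⊗ ℚ(ζ_{q^m})` for `p ≠ q`.
-/

set_option autoImplicit false

open scoped TensorProduct NumberField
open IsDedekindDomain Pool.Agent.Q33.SB Polynomial

namespace Pool.Agent.Q195.SB

theorem pv_le (p : ℕ) [Fact p.Prime] (a b : ℚ) :
    Rat.padicValuation p a ≤ Rat.padicValuation p b ↔ ‖(a : ℚ_[p])‖ ≤ ‖(b : ℚ_[p])‖ := by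
  rw [Padic.eq_padicNorm, Padic.eq_padicNorm, Rat.cast_le]
  simp only [Rat.padicValuation, Valuation.coe_mk, MonoidWithZeroHom.coe_mk, ZeroHom.coe_mk,
    padicNorm]
  have hp1 : (1 : ℚ) < p := by exact_mod_cast (Fact.out : p.Prime).one_lt
  by_cases ha : a = 0
  · subst ha
    simp only [if_true, zero_le, true_iff]
    split_ifs
    · exact le_rfl
    · positivity
  · by_cases hb : b = 0
    · subst hb
      simp only [if_neg ha, if_true]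
      constructor
      · intro h
        exact absurd (le_zero_iff.1 h) (by simp)
      · intro h
        exact absurd h (not_le.2 (zpow_pos (by linarith) _))
    · rw [if_neg ha, if_neg hb, if_neg ha, if_neg hb, WithZero.exp_le_exp,
        zpow_le_zpow_iff_right₀ hp1]

theorem gen_eq (p : ℕ) [hp : Fact p.Prime] (v : HeightOneSpectrum (𝓞 ℚ)) :
    (p : 𝓞 ℚ) ∈ v.asIdeal ↔ Rat.HeightOneSpectrum.natGenerator v = p := by
  have h := Rat.HeightOneSpectrum.natGenerator_dvd_iff v (n := p)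
  have h2 : ((p : ℤ) ∈ v.asIdeal.map (Rat.IsIntegralClosure.intEquiv (𝓞 ℚ))) ↔
      (p : 𝓞 ℚ) ∈ v.asIdeal := by
    have h3 := Ideal.apply_mem_of_equiv_iff (I := v.asIdeal)
      (f := Rat.IsIntegralClosure.intEquiv (𝓞 ℚ)) (x := (p : 𝓞 ℚ))
    rw [map_natCast] at h3
    exact h3
  rw [← h2, ← h]
  exact Nat.prime_dvd_prime_iff_eq (Rat.HeightOneSpectrum.prime_natGenerator v) hp.out

theorem val_le (p : ℕ) [hp : Fact p.Prime] (v : HeightOneSpectrum (𝓞 ℚ))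
    (hv : (p : 𝓞 ℚ) ∈ v.asIdeal) (a b : ℚ) :
    v.valuation ℚ a ≤ v.valuation ℚ b ↔ ‖(a : ℚ_[p])‖ ≤ ‖(b : ℚ_[p])‖ := by
  have h1 : Rat.HeightOneSpectrum.primesEquiv v = ⟨p, hp.out⟩ :=
    Subtype.ext ((gen_eq p v).1 hv)
  have h2 := Rat.HeightOneSpectrum.valuation_equiv_padicValuation v
  rw [h1] at h2
  exact (h2 a b).trans (pv_le p a b)

theorem exists_place (p : ℕ) [hp : Fact p.Prime] :
    ∃ v : HeightOneSpectrum (𝓞 ℚ), (p : 𝓞 ℚ) ∈ v.asIdeal := by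
  refine ⟨Rat.HeightOneSpectrum.primesEquiv.symm ⟨p, hp.out⟩, (gen_eq p _).2 ?_⟩
  have h := Rat.HeightOneSpectrum.primesEquiv.apply_symm_apply
    (⟨p, hp.out⟩ : Nat.Primes) (α := HeightOneSpectrum (𝓞 ℚ))
  exact congrArg Subtype.val h

theorem prod_pow {L : Type} [Field L] [NumberField L] [IsGalois ℚ L] {σ : L ≃ₐ[ℚ] L} {n : ℕ}
    (h : IsGen σ n) (y : L) :
    ∏ i ∈ Finset.range n, (σ ^ i) y = algebraMap ℚ L (Algebra.norm ℚ y) := by
  classical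
  obtain ⟨h1, h2, h3⟩ := h
  rw [Algebra.norm_eq_prod_automorphisms]
  have hinj : Set.InjOn (fun i : ℕ => σ ^ i) (Finset.range n : Set ℕ) := by
    rw [Finset.coe_range, ← h2]
    exact pow_injOn_Iio_orderOf
  have himg : (Finset.range n).image (fun i : ℕ => σ ^ i) = Finset.univ := by
    apply Finset.eq_univ_of_card
    rw [Finset.card_image_of_injOn hinj, Finset.card_range, ← Nat.card_eq_fintype_card,
      IsGalois.card_aut_eq_finrank, h1]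
  rw [← himg, Finset.prod_image hinj]

theorem nr_tmul {L : Type} [Field L] [NumberField L] [IsGalois ℚ L] {σ : L ≃ₐ[ℚ] L} {n : ℕ}
    (h : IsGen σ n) (p : ℕ) [Fact p.Prime] (z : ℚ_[p]) (y : L) :
    nr ℚ_[p] σ n (z ⊗ₜ[ℚ] y) = (z ^ n * ((Algebra.norm ℚ y : ℚ) : ℚ_[p])) ⊗ₜ[ℚ] (1 : L) := by
  unfold nr
  simp only [sg_pow_tmul]
  have h1 : ∀ s : Finset ℕ, ∏ i ∈ s, z ⊗ₜ[ℚ] (σ ^ i) y =
      (z ^ s.card) ⊗ₜ[ℚ] (∏ i ∈ s, (σ ^ i) y) := by
    intro s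
    induction s using Finset.cons_induction with
    | empty => simp [Algebra.TensorProduct.one_def]
    | cons a s ha ih =>
      rw [Finset.prod_cons, ih, Finset.prod_cons, Finset.card_cons,
        Algebra.TensorProduct.tmul_mul_tmul, pow_succ']
  rw [h1, Finset.card_range, prod_pow h, Algebra.algebraMap_eq_smul_one, TensorProduct.tmul_smul,
    TensorProduct.smul_tmul', Rat.smul_def, mul_comm]

theorem hensel (p : ℕ) [hp : Fact p.Prime] (n : ℕ) (u : ℚ_[p])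
    (hu : ‖u - 1‖ < ‖(n : ℚ_[p])‖ ^ 2) : ∃ z : ℚ_[p], z ^ n = u := by
  have hn1 : ‖(n : ℚ_[p])‖ ≤ 1 := by
    simpa using Padic.norm_int_le_one (p := p) (n : ℤ)
  have hu1 : ‖u - 1‖ < 1 := lt_of_lt_of_le hu (by
    have := norm_nonneg (n : ℚ_[p])
    nlinarith)
  have hu2 : ‖u‖ ≤ 1 := by
    have h : u = (u - 1) + 1 := by ring
    rw [h]
    refine (Padic.nonarchimedean _ _).trans (max_le hu1.le ?_)
    rw [norm_one]
  obtain ⟨U, hU⟩ : ∃ U : ℤ_[p], (U : ℚ_[p]) = u := ⟨⟨u, hu2⟩, rfl⟩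
  have hH := hensels_lemma (p := p) (F := (X ^ n - C U : Polynomial ℤ_[p]))
    (a := (1 : ℤ_[p])) (by
      simp only [map_sub, derivative_X_pow, derivative_C, sub_zero, map_mul, one_pow, mul_one,
        map_natCast, map_pow, aeval_X, aeval_C, Algebra.algebraMap_self, RingHom.id_apply]
      rw [← norm_neg, neg_sub, PadicInt.norm_def, PadicInt.norm_def, PadicInt.coe_sub, hU,
        PadicInt.coe_one, PadicInt.coe_natCast]
      exact hu)
  obtain ⟨z, hz, -⟩ := hH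
  refine ⟨(z : ℚ_[p]), ?_⟩
  have h3 : z ^ n = U := by
    simpa [sub_eq_zero] using hz
  rw [← PadicInt.coe_pow, h3, hU]

theorem t_NUN : S_NUN := by
  intro p q m n hp hq L _ _ _ σ hpq hσ b hb
  have hG : IsGalois ℚ L := IsCyclotomicExtension.isGalois {q ^ m} ℚ L
  have hn : 0 < n := hσ.2.2
  have hnz : (n : ℚ_[p]) ≠ 0 := by exact_mod_cast hn.ne'
  have hnn : 0 < ‖(n : ℚ_[p])‖ ^ 2 := by positivity
  have hp1 : (1 : ℝ) < p := by exact_mod_cast hp.out.one_lt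
  obtain ⟨s, hs1, hs2⟩ : ∃ s : ℕ, 1 ≤ s ∧ (p : ℝ) ^ (-(s : ℤ)) < ‖(n : ℚ_[p])‖ ^ 2 := by
    obtain ⟨k, hk⟩ := exists_pow_lt_of_lt_one hnn (inv_lt_one_of_one_lt₀ hp1)
    refine ⟨k + 1, by omega, lt_of_le_of_lt ?_ hk⟩
    rw [zpow_neg, zpow_natCast, ← inv_pow]
    exact pow_le_pow_of_le_one (by positivity) (inv_lt_one_of_one_lt₀ hp1).le (by omega)
  have hps : (p : ℝ) ^ (-(s : ℤ)) < 1 := by
    rw [zpow_neg, zpow_natCast, ← inv_pow]
    exact pow_lt_one₀ (by positivity) (inv_lt_one_of_one_lt₀ hp1) (by omega)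
  -- the integer x
  obtain ⟨x, hx⟩ : ∃ x : ℕ, ‖b - (x : ℚ_[p])‖ ≤ (p : ℝ) ^ (-(s : ℤ)) := by
    obtain ⟨B, hB⟩ : ∃ B : ℤ_[p], (B : ℚ_[p]) = b := ⟨⟨b, hb.le⟩, rfl⟩
    refine ⟨PadicInt.appr B s, ?_⟩
    have h := PadicInt.appr_spec s B
    rw [← PadicInt.norm_le_pow_iff_mem_span_pow, PadicInt.norm_def, PadicInt.coe_sub,
      PadicInt.coe_natCast, hB] at h
    exact h
  have hxn : ‖(x : ℚ_[p])‖ = 1 := by
    have h2 : ‖b - (x : ℚ_[p])‖ < ‖b‖ := by rw [hb]; exact lt_of_le_of_lt hx hps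
    rw [← Padic.norm_eq_of_norm_sub_lt_left h2, hb]
  have hx0 : (x : ℚ) ≠ 0 := by
    intro h
    have h2 : x = 0 := by exact_mod_cast h
    rw [h2] at hxn
    simp at hxn
  have hNe : NeZero (q ^ m) := ⟨pow_ne_zero _ hq.out.ne_zero⟩
  obtain ⟨y, -, -, hy, -⟩ := Pool.Agent.Q38.EX.nrm ℚ L (p ^ s) (Units.mk0 (x : ℚ) hx0)
    (pow_ne_zero _ hp.out.ne_zero) (by
      intro v hv
      right; right
      have hpv : (p : 𝓞 ℚ) ∈ v.asIdeal := by
        rw [Nat.cast_pow] at hv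
        exact v.isPrime.mem_of_pow_mem _ hv
      refine ⟨Pool.Agent.Q280.AR.unr1 ℚ L (q ^ m) v ?_, ?_⟩
      · intro hq'
        have hco : IsCoprime ((p : ℕ) : ℤ) ((q ^ m : ℕ) : ℤ) := by
          rw [Nat.isCoprime_iff_coprime]
          exact Nat.Coprime.pow_right _ ((Nat.coprime_primes hp.out hq.out).2 hpq)
        obtain ⟨a, c, hac⟩ := hco
        apply v.isPrime.ne_top
        rw [Ideal.eq_top_iff_one]
        have h1 : (a : 𝓞 ℚ) * (p : 𝓞 ℚ) + (c : 𝓞 ℚ) * ((q ^ m : ℕ) : 𝓞 ℚ) = 1 := by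
          exact_mod_cast congrArg (Int.cast : ℤ → 𝓞 ℚ) hac
        rw [← h1]
        exact v.asIdeal.add_mem (Ideal.mul_mem_left _ _ hpv) (Ideal.mul_mem_left _ _ hq')
      · have h1 := (val_le p v hpv (x : ℚ) 1).2 (by
          rw [Rat.cast_natCast, hxn, Rat.cast_one, norm_one])
        have h2 := (val_le p v hpv 1 (x : ℚ)).2 (by
          rw [Rat.cast_natCast, hxn, Rat.cast_one, norm_one])
        rw [Units.val_mk0, ← map_one (v.valuation ℚ)]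
        exact le_antisymm h1 h2)
  obtain ⟨v, hv⟩ := exists_place p
  have hN : ((p ^ s : ℕ) : 𝓞 ℚ) ∈ v.asIdeal := by
    rw [Nat.cast_pow]
    exact Ideal.pow_mem_of_mem _ hv _ (by omega)
  have hc := (val_le p v hv _ _).1 (hy v hN)
  rw [Units.val_mk0] at hc
  set N : ℚ := ((Pool.Agent.Q92.AR.nu ℚ L y : ℚˣ) : ℚ) with hNdef
  have hNy : N = Algebra.norm ℚ (y : L) := rfl
  have hN0 : N ≠ 0 := Units.ne_zero _
  have hN0' : (N : ℚ_[p]) ≠ 0 := by exact_mod_cast hN0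
  have hc2 : ‖(x : ℚ_[p]) / (N : ℚ_[p]) - 1‖ ≤ (p : ℝ) ^ (-(s : ℤ)) := by
    have h : ‖(((p ^ s : ℕ) : ℚ) : ℚ_[p])‖ = (p : ℝ) ^ (-(s : ℤ)) := by
      rw [Rat.cast_natCast, Nat.cast_pow, norm_pow, Padic.norm_p, zpow_neg, zpow_natCast, inv_pow]
    rw [← h]
    have h2 : (((x : ℚ) / N - 1 : ℚ) : ℚ_[p]) = (x : ℚ_[p]) / (N : ℚ_[p]) - 1 := by push_cast; rfl
    rw [← h2]
    exact hc
  have hx0' : (x : ℚ_[p]) ≠ 0 := by
    intro h
    rw [h, norm_zero] at hxn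
    exact zero_ne_one hxn
  have hr1 : ‖(x : ℚ_[p]) / (N : ℚ_[p])‖ ≤ 1 := by
    have h : (x : ℚ_[p]) / (N : ℚ_[p]) = ((x : ℚ_[p]) / (N : ℚ_[p]) - 1) + 1 := by ring
    rw [h]
    refine (Padic.nonarchimedean _ _).trans (max_le (hc2.trans hps.le) ?_)
    rw [norm_one]
  have hu : ‖b / (N : ℚ_[p]) - 1‖ < ‖(n : ℚ_[p])‖ ^ 2 := by
    have h : b / (N : ℚ_[p]) - 1 = (b - x) / x * ((x : ℚ_[p]) / (N : ℚ_[p])) +
        ((x : ℚ_[p]) / (N : ℚ_[p]) - 1) := by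
      field_simp
      ring
    rw [h]
    refine lt_of_le_of_lt ((Padic.nonarchimedean _ _).trans (max_le ?_ hc2)) hs2
    rw [norm_mul, norm_div, hxn, div_one]
    exact (mul_le_of_le_one_right (norm_nonneg _) hr1).trans hx
  obtain ⟨z, hz⟩ := hensel p n _ hu
  refine ⟨z ⊗ₜ[ℚ] (y : L), ?_⟩
  rw [nr_tmul hσ p z (y : L), ← hNy, hz, div_mul_cancel₀ _ hN0']
  rfl

end Pool.Agent.Q195.SB
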